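import Pool.Agent.HX6.CE.C

/-!
# The maximal norm of a power under a spectral radius bound: all `n`, small `r`

Let `|T|` be the norm of an `n × n` complex matrix as an operator of `ℓ^∞_n` (the greatest row sum of moduli), and
let `M n m r` be the supremum of `|T ^ m|` over the `T` with `|T| ≤ 1` and spectral radius at most `r`. The
question asks for `M n q r`, `q = n ^ 2 - n + 1`, for all `n` and `0 ≤ r < 1`. We determine it for all `n` and
`0 ≤ r ≤ 2 ^ (1/n) - 1`, and for all exponents `m ≥ n - 1`: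

`M n m r = ∑_{j < n} (-1)^(n-1-j) C(m, j) r^(m-j) (1 + r)^j`,

and the maximum is attained at the companion matrix of `(X - r) ^ n`. For example `M 2 3 r = 3 r² + 2 r³`
for `0 ≤ r ≤ √2 - 1`.

Proof. Let `λ 1, ..., λ n` be the eigenvalues of `T` and `X ^ m = ∑_{k<n} c k X ^ k` modulo `∏ (X - λ i)`; then
`|T ^ m| ≤ ∑ |c k|`. The remainders `R (λ 1, ..., λ n; m)` satisfy
`R (λ, L; m + 1) = λ R (λ, L; m) + (X - λ) R (L; m)`, so up to the sign `(-1)^(n-1-k)` the coefficient `c k` is a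
polynomial in the `λ i` with nonnegative coefficients for `m ≥ n - 1` (a hook Schur polynomial), and
`|c k|` is greatest if all `λ i` are equal to `r`. For the companion matrix `T` of `(X - r) ^ n` the first row
of `T ^ m` consists of these `c k`, and `|T| ≤ 1` if and only if `(1 + r) ^ n - 1 ≤ 1` (for `n ≥ 2`).
-/

set_option autoImplicit false

open Pool.Agent.HX6.CE
open scoped Matrix.Norms.Operator

namespace Pool.Agent.Results.MP_c71a08_an.SmallSpectralRadius

/-- The companion matrix of `(X - r) ^ n`: `1` above the diagonal, in the last row minus the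
coefficients of the polynomial, `0` elsewhere. -/
noncomputable def comp (n : ℕ) (r : ℝ) : Matrix (Fin n) (Fin n) ℂ := fun i j =>
  if (i : ℕ) + 1 = n then -((n.choose j : ℂ) * (-(r : ℂ)) ^ (n - j)) else
    if (i : ℕ) + 1 = j then 1 else 0

/-- The set of the numbers `|T ^ m|`, `T` an `n × n` complex matrix with `|T| ≤ 1` and spectral radius at
most `r`, where `|T| = max_i ∑_j |T i j|` is the operator norm for the maximum norm of `ℂ^n`
(Mathlib's norm in the scope `Matrix.Norms.Operator`). -/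
def norms (n m : ℕ) (r : ℝ) : Set ℝ :=
  {x | ∃ T : Matrix (Fin n) (Fin n) ℂ, ‖T‖ ≤ 1 ∧ (∀ z ∈ spectrum ℂ T, ‖z‖ ≤ r) ∧ x = ‖T ^ m‖}

/-- **The maximum of `|T ^ m|` for all `n` and `0 ≤ r ≤ 2 ^ (1/n) - 1`.** For all `m ≥ n - 1`, in particular for
`m = n ^ 2 - n + 1`. -/
theorem result (n : ℕ) (hn : 1 ≤ n) (r : ℝ) (hr : 0 ≤ r) (hr2 : (1 + r) ^ n ≤ 2) (m : ℕ)
    (hm : n - 1 ≤ m) :
    IsGreatest (norms n m r) (∑ j ∈ Finset.range n,
      (-1) ^ (n - 1 - j) * (m.choose j : ℝ) * r ^ (m - j) * (1 + r) ^ j) ∧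
    ‖comp n r‖ ≤ 1 ∧ (∀ z ∈ spectrum ℂ (comp n r), ‖z‖ ≤ r) ∧
    ‖comp n r ^ m‖ = ∑ j ∈ Finset.range n,
      (-1) ^ (n - 1 - j) * (m.choose j : ℝ) * r ^ (m - j) * (1 + r) ^ j := by
  obtain ⟨h1, h2, h3, h4⟩ := main (n := n) (by omega) hr hr2 m (by omega)
  refine ⟨⟨⟨Tr n r, h1, h2, h3.symm⟩, ?_⟩, h1, h2, h3⟩
  rintro x ⟨T, hT, hs, rfl⟩
  exact h4 T hT hs

end Pool.Agent.Results.MP_c71a08_an.SmallSpectralRadius
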